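import Pool.Agent.U501.Width.Width

/-!
# The width of the free actions of a nonamenable group is the continuum

For every countable nonamenable group `Γ` and every standard Borel space `X` with a non-atomic
probability measure `μ`, the supremum of the cardinalities of the antichains, for weak
containment, in the class of free probability measure preserving actions of `Γ` on `(X, μ)` is
the continuum. The antichain consists of the actions `a_t`, `0 < t < 1/2`, where `a_t` is the
disjoint union of two copies of the Bernoulli shift, of total masses `t` and `1 - t`.
-/

namespace Pool.Agent.Results.MP_651bcb_an.WidthContinuum

open MeasureTheory Pool.Agent.U501.Width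

theorem result (Γ : Type) [Group Γ] [Countable Γ] (hΓ : ¬ Amenable Γ) (X : Type)
    [MeasurableSpace X] [StandardBorelSpace X] (μ : Measure X) [IsProbabilityMeasure μ]
    [NullSingletonClass μ] : width Γ μ = Cardinal.continuum :=
  width_eq_continuum Γ hΓ X μ

end Pool.Agent.Results.MP_651bcb_an.WidthContinuum
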